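import Pool.Agent.helper62.RP.Spec

/-!
# Project rp (MP_07c750_an): row EX1
-/

set_option autoImplicit false

open Polynomial Filter
open Pool.Agent.QU

namespace Pool.Agent.RP

/-- `∏_{j<m} (1 - j/N)` -/
theorem EX1_desc (N m : ℕ) (hN : 0 < N) (hm : m ≤ N) :
    (N.descFactorial m : ℝ) = (N : ℝ) ^ m * ∏ j ∈ Finset.range m, (1 - (j : ℝ) * (1 / (N : ℝ))) := by
  have hN' : (N : ℝ) ≠ 0 := Nat.cast_ne_zero.2 hN.ne'
  have hc : (N : ℝ) ^ m = ∏ _j ∈ Finset.range m, (N : ℝ) := by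
    rw [Finset.prod_const, Finset.card_range]
  rw [Nat.descFactorial_eq_prod_range, Nat.cast_prod, hc, ← Finset.prod_mul_distrib]
  refine Finset.prod_congr rfl fun j hj => ?_
  have hj' : j ≤ N := by
    have := Finset.mem_range.1 hj
    omega
  rw [Nat.cast_sub hj']
  field_simp

theorem EX1_pos (N j : ℕ) (hN : 0 < N) (hj : j < N) : 0 < 1 - (j : ℝ) * (1 / (N : ℝ)) := by
  have hN' : (0 : ℝ) < N := Nat.cast_pos.2 hN
  have : (j : ℝ) < N := Nat.cast_lt.2 hj
  rw [mul_one_div, sub_pos, div_lt_one hN']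
  exact this

/-- `(N - e)! / N! * ∏_{j<ℓ} (1 - j/N) = N^(-e) ∏_{e ≤ j < ℓ} (1 - j/N)` -/
theorem EX1_fac (N e ℓ : ℕ) (hN : 0 < N) (he : e ≤ ℓ) (hl : ℓ ≤ N) :
    ((N - e).factorial : ℝ) / (N.factorial : ℝ) *
      ∏ j ∈ Finset.range ℓ, (1 - (j : ℝ) * (1 / (N : ℝ))) =
    (1 / (N : ℝ)) ^ e * ∏ j ∈ Finset.Ico e ℓ, (1 - (j : ℝ) * (1 / (N : ℝ))) := by
  have hN' : (N : ℝ) ≠ 0 := Nat.cast_ne_zero.2 hN.ne'
  have h1 := Nat.factorial_mul_descFactorial (le_trans he hl)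
  have h2 : ((N - e).factorial : ℝ) * (N.descFactorial e : ℝ) = (N.factorial : ℝ) := by
    exact_mod_cast h1
  rw [EX1_desc N e hN (le_trans he hl)] at h2
  have h3 : (∏ j ∈ Finset.range e, (1 - (j : ℝ) * (1 / (N : ℝ)))) ≠ 0 := by
    refine Finset.prod_ne_zero_iff.2 fun j hj => ?_
    have := Finset.mem_range.1 hj
    exact (EX1_pos N j hN (by omega)).ne'
  have h4 : ((N - e).factorial : ℝ) ≠ 0 := Nat.cast_ne_zero.2 (Nat.factorial_ne_zero _)
  rw [← Finset.prod_range_mul_prod_Ico _ he, ← h2]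
  generalize (∏ j ∈ Finset.range e, (1 - (j : ℝ) * (1 / (N : ℝ)))) = u at h3 ⊢
  generalize (∏ j ∈ Finset.Ico e ℓ, (1 - (j : ℝ) * (1 / (N : ℝ)))) = v
  rw [one_div, inv_pow]
  field_simp

/-- `∏_{i} f i` of polynomials of degree at most one -/
theorem EX1_deg (s : Finset ℕ) :
    (∏ j ∈ s, (1 - C (j : ℝ) * (X : ℝ[X]))).natDegree ≤ s.card := by
  refine le_trans (Polynomial.natDegree_prod_le _ _) ?_
  refine le_trans (Finset.sum_le_card_nsmul _ _ 1 fun j _ => ?_) (by simp)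
  refine le_trans (Polynomial.natDegree_sub_le _ _) ?_
  rw [Polynomial.natDegree_one, Nat.zero_max]
  refine le_trans (Polynomial.natDegree_mul_le) ?_
  rw [Polynomial.natDegree_C, zero_add]
  exact Polynomial.natDegree_X_le

theorem EX1_nex_le {n : ℕ} [NeZero n] (w : Fin n → Ltr) (c : Fin n → Fin n) (x : Fin 2) :
    nex w c x ≤ n := by
  unfold nex
  refine le_trans (Finset.card_filter_le _ _) ?_
  unfold edg
  exact le_trans Finset.card_image_le (by simp)

theorem EX1_nv_le {n : ℕ} (c : Fin n → Fin n) : nv c ≤ n := by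
  unfold nv
  exact le_trans Finset.card_image_le (by simp)

theorem EX1 (hFRM : FRM_stmt) (hDRT : DRT_stmt) (hPRD : PRD_stmt) (hPC1 : PC1_stmt)
    (hPC2 : PC2_stmt) : EX1_stmt := by
  intro n ℓ _ w hCR hn
  have hn0 : 0 < n := Nat.pos_of_ne_zero (NeZero.ne n)
  set S := Finset.univ.filter (fun c : Fin n → Fin n => Can c ∧ Con w c) with hS
  set Q : (Fin n → Fin n) → ℝ[X] := fun c =>
    X ^ (nex w c 0 + nex w c 1 - nv c) * (∏ j ∈ Finset.range (nv c), (1 - C (j : ℝ) * X)) *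
      ((∏ j ∈ Finset.Ico (nex w c 0) ℓ, (1 - C (j : ℝ) * X)) *
        (∏ j ∈ Finset.Ico (nex w c 1) ℓ, (1 - C (j : ℝ) * X))) with hQ
  have hle : ∀ c ∈ S, nv c ≤ nex w c 0 + nex w c 1 := by
    intro c hc
    rw [hS, Finset.mem_filter] at hc
    exact (hDRT n w c hCR hc.2.2).1
  refine ⟨∑ c ∈ S, Q c, ?_, ?_, ?_⟩
  · refine Polynomial.natDegree_sum_le_of_forall_le _ _ fun c hc => ?_
    have h0 := hle c hc
    have h1 := EX1_nex_le w c 0
    have h2 := EX1_nex_le w c 1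
    have d1 := EX1_deg (Finset.range (nv c))
    have d2 := EX1_deg (Finset.Ico (nex w c 0) ℓ)
    have d3 := EX1_deg (Finset.Ico (nex w c 1) ℓ)
    rw [Finset.card_range] at d1
    rw [Nat.card_Ico] at d2 d3
    refine le_trans Polynomial.natDegree_mul_le ?_
    have e1 := Polynomial.natDegree_mul_le (p := (X : ℝ[X]) ^ (nex w c 0 + nex w c 1 - nv c))
      (q := ∏ j ∈ Finset.range (nv c), (1 - C (j : ℝ) * X))
    have e2 := Polynomial.natDegree_mul_le
      (p := ∏ j ∈ Finset.Ico (nex w c 0) ℓ, (1 - C (j : ℝ) * (X : ℝ[X])))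
      (q := ∏ j ∈ Finset.Ico (nex w c 1) ℓ, (1 - C (j : ℝ) * X))
    rw [Polynomial.natDegree_X_pow] at e1
    omega
  · intro N hN
    have hN0 : 0 < N := by omega
    have hN' : (N : ℝ) ≠ 0 := Nat.cast_ne_zero.2 hN0.ne'
    unfold Ew
    have h1 := hFRM n N w
    have h2 : (∑ σ : Fin 2 → Equiv.Perm (Fin N),
        (fx (FreeGroup.lift σ (FreeGroup.mk (List.ofFn w))) : ℝ)) =
        ∑ c ∈ S, (N.descFactorial (nv c) : ℝ) *
          (((N - nex w c 0).factorial : ℝ) * ((N - nex w c 1).factorial : ℝ)) := by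
      rw [← Nat.cast_sum, h1]
      push_cast
      refine Finset.sum_congr rfl fun c _ => ?_
      rw [Fin.prod_univ_two]
    rw [h2, Polynomial.eval_finsetSum, Finset.sum_div, Finset.sum_mul]
    refine Finset.sum_congr rfl fun c hc => ?_
    have h0 := hle c hc
    have hg : (gl ℓ).eval (1 / (N : ℝ)) =
        (∏ j ∈ Finset.range ℓ, (1 - (j : ℝ) * (1 / (N : ℝ)))) *
          (∏ j ∈ Finset.range ℓ, (1 - (j : ℝ) * (1 / (N : ℝ)))) := by
      unfold gl
      rw [Polynomial.eval_prod, ← Finset.prod_mul_distrib]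
      refine Finset.prod_congr rfl fun j _ => ?_
      simp only [eval_pow, eval_sub, eval_one, eval_mul, eval_C, eval_X]
      ring
    have hQe : (Q c).eval (1 / (N : ℝ)) =
        (1 / (N : ℝ)) ^ (nex w c 0 + nex w c 1 - nv c) *
          (∏ j ∈ Finset.range (nv c), (1 - (j : ℝ) * (1 / (N : ℝ)))) *
          ((∏ j ∈ Finset.Ico (nex w c 0) ℓ, (1 - (j : ℝ) * (1 / (N : ℝ)))) *
            (∏ j ∈ Finset.Ico (nex w c 1) ℓ, (1 - (j : ℝ) * (1 / (N : ℝ))))) := by
      simp only [hQ, eval_mul, eval_pow, eval_X, Polynomial.eval_prod, eval_sub, eval_one, eval_C]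
    have f0 := EX1_fac N (nex w c 0) ℓ hN0 (le_trans (EX1_nex_le w c 0) hn) hN
    have f1 := EX1_fac N (nex w c 1) ℓ hN0 (le_trans (EX1_nex_le w c 1) hn) hN
    rw [hg, hQe, EX1_desc N (nv c) hN0 (le_trans (EX1_nv_le c) (le_trans hn hN))]
    have hpow : (1 / (N : ℝ)) ^ (nex w c 0 + nex w c 1 - nv c) =
        (N : ℝ) ^ (nv c) * ((1 / (N : ℝ)) ^ (nex w c 0) * (1 / (N : ℝ)) ^ (nex w c 1)) := by
      rw [← pow_add]
      conv_rhs => rw [← Nat.sub_add_cancel h0, pow_add]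
      rw [one_div, inv_pow, inv_pow]
      field_simp
    rw [hpow]
    calc _ = (N : ℝ) ^ nv c * (∏ j ∈ Finset.range (nv c), (1 - (j : ℝ) * (1 / (N : ℝ)))) *
          ((((N - nex w c 0).factorial : ℝ) / (N.factorial : ℝ) *
            ∏ j ∈ Finset.range ℓ, (1 - (j : ℝ) * (1 / (N : ℝ)))) *
          (((N - nex w c 1).factorial : ℝ) / (N.factorial : ℝ) *
            ∏ j ∈ Finset.range ℓ, (1 - (j : ℝ) * (1 / (N : ℝ))))) := by
          have hf : (N.factorial : ℝ) ≠ 0 := Nat.cast_ne_zero.2 (Nat.factorial_ne_zero _)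
          field_simp
      _ = _ := by
          rw [f0, f1]
          ring
  · rw [Polynomial.eval_finsetSum]
    have h1 : ∀ c ∈ S, (Q c).eval 0 = if nv c = nex w c 0 + nex w c 1 then (1 : ℝ) else 0 := by
      intro c hc
      have h0 := hle c hc
      have e1 : ∀ s : Finset ℕ, (∏ j ∈ s, (1 - C (j : ℝ) * (X : ℝ[X]))).eval 0 = 1 := by
        intro s
        rw [Polynomial.eval_prod]
        refine Finset.prod_eq_one fun j _ => ?_
        simp
      simp only [hQ, eval_mul, eval_pow, eval_X, e1, mul_one]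
      split_ifs with h
      · rw [h, Nat.sub_self, pow_zero]
      · exact zero_pow (by omega)
    rw [Finset.sum_congr rfl h1, Finset.sum_boole]
    have h2 : (S.filter fun c => nv c = nex w c 0 + nex w c 1) =
        Finset.univ.filter (fun c : Fin n → Fin n => Can c ∧ Rot w c) := by
      ext c
      simp only [hS, Finset.mem_filter, Finset.mem_univ, true_and]
      constructor
      · rintro ⟨⟨hc1, hc2⟩, hc3⟩
        exact ⟨hc1, (hDRT n w c hCR hc2).2 hc3⟩
      · rintro ⟨hc1, hc2⟩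
        obtain ⟨h3, h4⟩ := hPRD n w c hCR hc2
        exact ⟨⟨hc1, h3⟩, h4⟩
    rw [h2, hPC1 n w, hPC2 n ℓ w hCR hn]

end Pool.Agent.RP
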