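import Pool.Agent.helper62.RP.Spec

/-!
# Project rp (MP_07c750_an): row LAL
-/

set_option autoImplicit false

open Polynomial Filter
open Pool.Agent.QU

namespace Pool.Agent.RP

/-- norm estimate for a Hermitian matrix from its eigenvalues, and trace of the powers -/
theorem LAL_herm (N : ℕ) (B : Matrix (Fin N) (Fin N) ℂ) (hB : B.IsHermitian) :
    (∀ i, ∃ e : EuclideanSpace ℂ (Fin N), ‖e‖ = 1 ∧
      Matrix.toEuclideanLin B e = ((hB.eigenvalues i : ℝ) : ℂ) • e) ∧
    (∀ k : ℕ, (B ^ k).trace = ((∑ i, hB.eigenvalues i ^ k : ℝ) : ℂ)) ∧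
    ∀ (v : EuclideanSpace ℂ (Fin N)) (m : ℝ), 0 ≤ m → (∀ i, |hB.eigenvalues i| ≤ m) →
      ‖Matrix.toEuclideanLin B v‖ ≤ m * ‖v‖ := by
  have hev : ∀ i, Matrix.toEuclideanLin B (hB.eigenvectorBasis i) =
      ((hB.eigenvalues i : ℝ) : ℂ) • hB.eigenvectorBasis i := by
    intro i
    have h1 := hB.mulVec_eigenvectorBasis i
    apply PiLp.ext
    intro j
    have h2 := congrFun h1 j
    simp only [Matrix.toLpLin_apply, PiLp.smul_apply, smul_eq_mul]
    rw [h2]
    simp
  refine ⟨fun i => ⟨hB.eigenvectorBasis i, hB.eigenvectorBasis.orthonormal.1 i, hev i⟩, ?_, ?_⟩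
  · intro k
    have h1 := hB.spectral_theorem
    have h2 : B ^ k = Unitary.conjStarAlgAut ℂ _ hB.eigenvectorUnitary
        ((Matrix.diagonal (RCLike.ofReal ∘ hB.eigenvalues)) ^ k) := by
      conv_lhs => rw [h1]
      rw [map_pow]
    rw [h2, Unitary.conjStarAlgAut_apply, Matrix.trace_mul_cycle, Unitary.coe_star_mul_self,
      one_mul, Matrix.diagonal_pow, Matrix.trace_diagonal]
    simp
  · intro v m hm hle
    have hsym := Matrix.isSymmetric_toEuclideanLin_iff.2 hB
    have h1 := hB.eigenvectorBasis.sum_sq_norm_inner_right (Matrix.toEuclideanLin B v)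
    have h2 := hB.eigenvectorBasis.sum_sq_norm_inner_right v
    have h3 : ‖Matrix.toEuclideanLin B v‖ ^ 2 ≤ (m * ‖v‖) ^ 2 := by
      rw [← h1, mul_pow, ← h2, Finset.mul_sum]
      refine Finset.sum_le_sum fun i _ => ?_
      rw [← hsym, hev i, inner_smul_left, norm_mul, mul_pow]
      refine mul_le_mul_of_nonneg_right ?_ (sq_nonneg _)
      have : ‖(starRingEnd ℂ) ((hB.eigenvalues i : ℝ) : ℂ)‖ = |hB.eigenvalues i| := by
        rw [RCLike.norm_conj, Complex.norm_real, Real.norm_eq_abs]
      rw [this]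
      exact pow_le_pow_left₀ (abs_nonneg _) (hle i) 2
    exact le_of_sq_le_sq h3 (mul_nonneg hm (norm_nonneg _))

theorem LAL : LAL_stmt := by
  intro N A c K h hN hA h1 hK h0
  have hN' : (N : ℂ) ≠ 0 := Nat.cast_ne_zero.2 hN.ne'
  set P : Matrix (Fin N) (Fin N) ℂ := Matrix.of fun _ _ => (N : ℂ)⁻¹ with hP
  have hPP : P * P = P := by
    ext i j
    rw [Matrix.mul_apply]
    simp only [hP, Matrix.of_apply, Finset.sum_const, Finset.card_univ, Fintype.card_fin,
      nsmul_eq_mul]
    rw [← mul_assoc, mul_inv_cancel₀ hN', one_mul]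
  have hPtr : P.trace = 1 := by
    rw [Matrix.trace]
    simp only [hP, Matrix.diag_apply, Matrix.of_apply, Finset.sum_const, Finset.card_univ,
      Fintype.card_fin, nsmul_eq_mul]
    exact mul_inv_cancel₀ hN'
  have hPH : P.IsHermitian := by
    ext i j
    rw [Matrix.conjTranspose_apply]
    simp [hP]
  have hAP : A * P = (c : ℂ) • P := by
    ext i j
    rw [Matrix.mul_apply, Matrix.smul_apply]
    simp only [hP, Matrix.of_apply, smul_eq_mul]
    rw [← Finset.sum_mul]
    have := congrFun h1 i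
    rw [Matrix.mulVec, dotProduct] at this
    simp only [mul_one] at this
    rw [this]
  have hPA : P * A = (c : ℂ) • P := by
    have h2 := congrArg Matrix.conjTranspose hAP
    rw [Matrix.conjTranspose_mul, hPH.eq, hA.eq, Matrix.conjTranspose_smul, hPH.eq] at h2
    simpa using h2
  set B : Matrix (Fin N) (Fin N) ℂ := A - (c : ℂ) • P with hBdef
  have hB : B.IsHermitian := by
    refine hA.sub ?_
    unfold Matrix.IsHermitian
    rw [Matrix.conjTranspose_smul, hPH.eq]
    simp
  have hBP : B * P = 0 := by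
    rw [hBdef, sub_mul, hAP, Matrix.smul_mul, hPP, sub_self]
  have hPB : P * B = 0 := by
    rw [hBdef, mul_sub, hPA, Matrix.mul_smul, hPP, sub_self]
  have hAB : A = B + (c : ℂ) • P := by
    rw [hBdef]
    abel
  have hpow : ∀ k : ℕ, A ^ (k + 1) = B ^ (k + 1) + ((c : ℂ) ^ (k + 1)) • P := by
    intro k
    induction k with
    | zero => rw [zero_add, pow_one, pow_one, pow_one]; exact hAB
    | succ k ih =>
      rw [pow_succ, ih]
      conv_lhs => rw [hAB]
      rw [add_mul, mul_add, mul_add, ← pow_succ, Matrix.mul_smul, pow_succ B k, mul_assoc _ B P,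
        hBP, mul_zero, smul_zero, Matrix.smul_mul, hPB, smul_zero, Matrix.smul_mul,
        Matrix.mul_smul, hPP, smul_smul, ← pow_succ]
      simp
  obtain ⟨hv, htr, hnorm⟩ := LAL_herm N B hB
  have hsymP := Matrix.isSymmetric_toEuclideanLin_iff.2 hPH
  have hlin : ∀ (M M' : Matrix (Fin N) (Fin N) ℂ) (v : EuclideanSpace ℂ (Fin N)),
      Matrix.toEuclideanLin (M * M') v = Matrix.toEuclideanLin M (Matrix.toEuclideanLin M' v) := by
    intro M M' v
    simp [Matrix.toLpLin_apply, Matrix.mulVec_mulVec]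
  have hproj : ∀ v : EuclideanSpace ℂ (Fin N),
      ‖v - Matrix.toEuclideanLin P v‖ ≤ ‖v‖ := by
    intro v
    have e1 : inner ℂ (v - Matrix.toEuclideanLin P v) (Matrix.toEuclideanLin P v) = 0 := by
      rw [← hsymP, map_sub, ← hlin, hPP, sub_self, inner_zero_left]
    have e2 := norm_add_sq_eq_norm_sq_add_norm_sq_of_inner_eq_zero _ _ e1
    rw [sub_add_cancel] at e2
    nlinarith [norm_nonneg (v - Matrix.toEuclideanLin P v), norm_nonneg v,
      mul_self_nonneg ‖Matrix.toEuclideanLin P v‖]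
  have hBA : ∀ v : EuclideanSpace ℂ (Fin N),
      Matrix.toEuclideanLin B v = Matrix.toEuclideanLin A (v - Matrix.toEuclideanLin P v) := by
    intro v
    have e1 : Matrix.toEuclideanLin A (v - Matrix.toEuclideanLin P v) =
        Matrix.toEuclideanLin A v - Matrix.toEuclideanLin A (Matrix.toEuclideanLin P v) :=
      map_sub _ _ _
    rw [e1, ← hlin, hAP, hBdef, map_sub]
    rfl
  have hKB : ∀ v : EuclideanSpace ℂ (Fin N), ‖Matrix.toEuclideanLin B v‖ ≤ K * ‖v‖ := by
    intro v
    have hK0 : 0 ≤ K := by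
      have e := hK (EuclideanSpace.single ⟨0, hN⟩ 1)
      have e2 : ‖(EuclideanSpace.single ⟨0, hN⟩ 1 : EuclideanSpace ℂ (Fin N))‖ = 1 := by simp
      rw [e2, mul_one] at e
      exact le_trans (norm_nonneg _) e
    rw [hBA]
    exact le_trans (hK _) (mul_le_mul_of_nonneg_left (hproj v) hK0)
  refine ⟨hB.eigenvalues, ?_, ?_, ?_⟩
  · intro i
    obtain ⟨e, he1, he2⟩ := hv i
    have := hKB e
    rw [he2, norm_smul, he1, mul_one, mul_one, Complex.norm_real, Real.norm_eq_abs] at this
    exact this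
  · have hc0 : h.coeff 0 = 0 := by
      rw [← Polynomial.coeff_zero_eq_eval_zero] at h0
      exact h0
    have e1 : ∀ i ∈ Finset.range (h.natDegree + 1), ((h.coeff i : ℝ) : ℂ) • A ^ i =
        ((h.coeff i : ℝ) : ℂ) • B ^ i + (((h.coeff i * c ^ i : ℝ)) : ℂ) • P := by
      intro i _
      rcases i with _ | i
      · rw [hc0]
        simp
      · rw [hpow i, smul_add, smul_smul]
        push_cast
        rfl
    rw [Finset.sum_congr rfl e1, Finset.sum_add_distrib, Matrix.trace_add, Matrix.trace_sum,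
      ← Finset.sum_smul, Matrix.trace_smul, hPtr]
    have e2 : ∀ i ∈ Finset.range (h.natDegree + 1), (((h.coeff i : ℝ) : ℂ) • B ^ i).trace =
        ((∑ j, h.coeff i * hB.eigenvalues j ^ i : ℝ) : ℂ) := by
      intro i _
      rw [Matrix.trace_smul, htr, ← Finset.mul_sum]
      push_cast
      rfl
    rw [Finset.sum_congr rfl e2]
    rw [show (∑ i, h.eval (hB.eigenvalues i)) = ∑ i ∈ Finset.range (h.natDegree + 1),
      ∑ j, h.coeff i * hB.eigenvalues j ^ i by
        rw [Finset.sum_comm]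
        exact Finset.sum_congr rfl fun j _ => Polynomial.eval_eq_sum_range _]
    rw [Polynomial.eval_eq_sum_range (p := h) c]
    push_cast
    rw [smul_eq_mul, mul_one, add_comm]
  · intro v hv0 m hm
    have hm0 : 0 ≤ m := le_trans (abs_nonneg _) (hm ⟨0, hN⟩)
    have e1 : Matrix.toEuclideanLin P v = 0 := by
      apply PiLp.ext
      intro j
      simp only [Matrix.toLpLin_apply, Matrix.mulVec, dotProduct, hP, Matrix.of_apply]
      rw [← Finset.mul_sum, hv0, mul_zero]
      rfl
    have e2 := hBA v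
    rw [e1, sub_zero] at e2
    rw [← e2]
    exact hnorm v m hm0 hm

end Pool.Agent.RP
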